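import Mathlib
import Pool.Agent.Helper884.Golod

set_option autoImplicit false

namespace Pool.Agent.Results.MP_b15bac_al.Disproof

open Pool.Agent.Helper884.Golod

section Construction

variable {A : Type} [Ring A] [Algebra (ZMod 11) A]

lemma eleven : (11 : A) = 0 := by
  have h : (11 : ZMod 11) = 0 := by decide
  have h2 := congrArg (algebraMap (ZMod 11) A) h
  rw [map_zero] at h2
  rw [← h2]
  exact (map_ofNat (algebraMap (ZMod 11) A) 11).symm

/-- Reduction of numerals modulo eleven. -/
lemma red (x y z : A) (h : x = y + 11 * z) : x = y := by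
  rw [h, eleven, zero_mul, add_zero]

variable (A) in
/-- The diagonal matrix with entries 3, 9, 5. -/
def al : (Matrix (Fin 3) (Fin 3) A)ˣ where
  val := !![3, 0, 0; 0, 9, 0; 0, 0, 5]
  inv := !![4, 0, 0; 0, 5, 0; 0, 0, 9]
  val_inv := by
    have h1 : (3 : A) * 4 = 1 := red _ _ 1 (by norm_num)
    have h2 : (9 : A) * 5 = 1 := red _ _ 4 (by norm_num)
    have h3 : (5 : A) * 9 = 1 := red _ _ 4 (by norm_num)
    ext i j; fin_cases i <;> fin_cases j <;> simp [Matrix.mul_apply, Fin.sum_univ_three, h1, h2, h3]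
  inv_val := by
    have h1 : (4 : A) * 3 = 1 := red _ _ 1 (by norm_num)
    have h2 : (9 : A) * 5 = 1 := red _ _ 4 (by norm_num)
    have h3 : (5 : A) * 9 = 1 := red _ _ 4 (by norm_num)
    ext i j; fin_cases i <;> fin_cases j <;> simp [Matrix.mul_apply, Fin.sum_univ_three, h1, h2, h3]

/-- The conjugating matrix. -/
def P (a b : A) : (Matrix (Fin 3) (Fin 3) A)ˣ where
  val := !![1 + b, a, b; 1, 1, 1; 1, 0, 1]
  inv := !![1, -a, a - b; 0, 1, -1; -1, a, 1 - a + b]
  val_inv := by
    ext i j
    fin_cases i <;> fin_cases j <;> simp [Matrix.mul_apply, Fin.sum_univ_three] <;> noncomm_ring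
  inv_val := by
    ext i j
    fin_cases i <;> fin_cases j <;> simp [Matrix.mul_apply, Fin.sum_univ_three] <;> noncomm_ring

lemma al_pow : (al A) ^ 5 = 1 := by
  apply Units.ext
  rw [Units.val_pow_eq_pow_val]
  have e : (al A).val = Matrix.diagonal ![3, 9, 5] := by
    ext i j; fin_cases i <;> fin_cases j <;> simp [al, Matrix.diagonal]
  have h1 : (3 : A) ^ 5 = 1 := red _ _ 22 (by norm_num)
  have h2 : (9 : A) ^ 5 = 1 := red _ _ 5368 (by norm_num)
  have h3 : (5 : A) ^ 5 = 1 := red _ _ 284 (by norm_num)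
  rw [e, Matrix.diagonal_pow]
  ext i j; fin_cases i <;> fin_cases j <;> simp [Matrix.diagonal, h1, h2, h3]

lemma al_ne [Nontrivial A] : al A ≠ 1 := by
  intro h
  have h1 := congrArg (fun u => (Units.val u) 0 0) h
  have h2 : (3 : A) = 1 := by simpa [al] using h1
  have h3 : (1 : A) = 0 := by
    have h4 : (1 : A) = 6 * (3 - 1) := (red _ _ 1 (by norm_num)).symm
    rw [h4, h2, sub_self, mul_zero]
  exact one_ne_zero h3

/-- Left multiplication by a unit, as an automorphism of the additive group of the matrix ring,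
the latter written multiplicatively. -/
def phi : (Matrix (Fin 3) (Fin 3) A)ˣ →*
    MulAut (Multiplicative (Matrix (Fin 3) (Fin 3) A)) where
  toFun u :=
    { toFun := fun r => Multiplicative.ofAdd (u.val * r.toAdd)
      invFun := fun r => Multiplicative.ofAdd (u⁻¹.val * r.toAdd)
      left_inv := fun r => by simp
      right_inv := fun r => by simp
      map_mul' := fun r s => by
        simp only [toAdd_mul, mul_add, ofAdd_add] }
  map_one' := by
    ext r
    simp
  map_mul' u v := by
    ext r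
    simp [mul_assoc]

omit [Algebra (ZMod 11) A] in
lemma phi_apply (u : (Matrix (Fin 3) (Fin 3) A)ˣ) (r : Matrix (Fin 3) (Fin 3) A) :
    phi u (Multiplicative.ofAdd r) = Multiplicative.ofAdd (u.val * r) := rfl

omit [Algebra (ZMod 11) A] in
lemma phi_injective : Function.Injective (phi (A := A)) := by
  intro u v h
  have h1 := congrArg (fun f => f (Multiplicative.ofAdd (1 : Matrix (Fin 3) (Fin 3) A))) h
  simp only [phi_apply, mul_one] at h1
  exact Units.ext (Multiplicative.ofAdd.injective h1)

lemma al_regular (v : Matrix (Fin 3) (Fin 3) A) (hv : (al A).val * v = v) : v = 0 := by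
  have h2 : (!![6, 0, 0; 0, 7, 0; 0, 0, 3] : Matrix (Fin 3) (Fin 3) A) * ((al A).val - 1) = 1 := by
    have e3 : (al A).val = !![3, 0, 0; 0, 9, 0; 0, 0, 5] := rfl
    have g1 : (6 : A) * (3 - 1) = 1 := red _ _ 1 (by norm_num)
    have g2 : (7 : A) * (9 - 1) = 1 := red _ _ 5 (by norm_num)
    have g3 : (3 : A) * (5 - 1) = 1 := red _ _ 1 (by norm_num)
    rw [e3]
    ext i j
    fin_cases i <;> fin_cases j <;>
      simp [Matrix.mul_apply, Fin.sum_univ_three, Matrix.sub_apply, g1, g2, g3]
  have h3 : ((al A).val - 1) * v = 0 := by rw [sub_mul, hv, one_mul, sub_self]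
  calc v = ((!![6, 0, 0; 0, 7, 0; 0, 0, 3] : Matrix (Fin 3) (Fin 3) A) * ((al A).val - 1)) * v := by
          rw [h2, one_mul]
    _ = 0 := by rw [mul_assoc, h3, mul_zero]

/-- The second element of order five. -/
def be (a b : A) : (Matrix (Fin 3) (Fin 3) A)ˣ := (P a b)⁻¹ * al A * P a b

lemma be_regular (a b : A) (v : Matrix (Fin 3) (Fin 3) A) (hv : (be a b).val * v = v) : v = 0 := by
  have h1 : (al A).val * ((P a b).val * v) = (P a b).val * v := by
    have h2 : al A * P a b = P a b * be a b := by simp [be, mul_assoc]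
    have h3 := congrArg Units.val h2
    rw [Units.val_mul, Units.val_mul] at h3
    rw [← mul_assoc, h3, mul_assoc, hv]
  have h4 := al_regular _ h1
  calc v = (P a b)⁻¹.val * ((P a b).val * v) := by rw [← mul_assoc]; simp
    _ = 0 := by rw [h4, mul_zero]

lemma be_pow (a b : A) : (be a b) ^ 5 = 1 := by
  have : be a b = MulAut.conj (P a b)⁻¹ (al A) := by simp [be]
  rw [this, ← map_pow, al_pow, map_one]

lemma be_ne [Nontrivial A] (a b : A) : be a b ≠ 1 := by
  intro h
  apply al_ne (A := A)
  have h2 : al A = P a b * be a b * (P a b)⁻¹ := by simp [be, mul_assoc]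
  rw [h2, h]; simp

/-- Corner matrix. -/
abbrev E (c : A) : Matrix (Fin 3) (Fin 3) A := !![c, 0, 0; 0, 0, 0; 0, 0, 0]

lemma corner_mem (a b : A) (hab : Algebra.adjoin (ZMod 11) {a, b} = ⊤)
    (S : Subalgebra (ZMod 11) (Matrix (Fin 3) (Fin 3) A))
    (h1 : (al A).val ∈ S) (h2 : (be a b).val ∈ S) (c : A) : E c ∈ S := by
  have num : ∀ n : ℕ, (!![(n : A), 0, 0; 0, (n : A), 0; 0, 0, (n : A)]) ∈ S := by
    intro n
    have h := S.natCast_mem n
    have e : ((n : Matrix (Fin 3) (Fin 3) A)) = !![(n : A), 0, 0; 0, (n : A), 0; 0, 0, (n : A)] := by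
      rw [← Matrix.diagonal_natCast]
      ext i j
      fin_cases i <;> fin_cases j <;> simp [Matrix.diagonal]
    rw [e] at h
    exact h
  have n9 : (!![(9 : A), 0, 0; 0, 9, 0; 0, 0, 9]) ∈ S := by exact_mod_cast num 9
  have n5 : (!![(5 : A), 0, 0; 0, 5, 0; 0, 0, 5]) ∈ S := by exact_mod_cast num 5
  have n3 : (!![(3 : A), 0, 0; 0, 3, 0; 0, 0, 3]) ∈ S := by exact_mod_cast num 3
  have hA : (al A).val = !![3, 0, 0; 0, 9, 0; 0, 0, 5] := rfl
  have hB : (be a b).val = !![1, -a, a - b; 0, 1, -1; -1, a, 1 - a + b] *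
    !![3, 0, 0; 0, 9, 0; 0, 0, 5] * !![1 + b, a, b; 1, 1, 1; 1, 0, 1] := rfl
  -- first idempotent
  have e1 : E (1 : A) ∈ S := by
    have h := S.mul_mem (S.sub_mem h1 n9) (S.sub_mem h1 n5)
    have e : ((al A).val - (!![(9 : A), 0, 0; 0, 9, 0; 0, 0, 9])) *
        ((al A).val - (!![(5 : A), 0, 0; 0, 5, 0; 0, 0, 5])) = E 1 := by
      have g1 : ((3 : A) - 9) * (3 - 5) = 1 := red _ _ 1 (by norm_num)
      rw [hA]
      ext i j
      fin_cases i <;> fin_cases j <;>
        simp [Matrix.mul_apply, Fin.sum_univ_three, Matrix.sub_apply, g1]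
    rw [e] at h
    exact h
  have e2 : (!![0, 0, 0; 0, 2, 0; 0, 0, 0] : Matrix (Fin 3) (Fin 3) A) ∈ S := by
    have h := S.mul_mem (S.sub_mem h1 n3) (S.sub_mem h1 n5)
    have e : ((al A).val - (!![(3 : A), 0, 0; 0, 3, 0; 0, 0, 3])) *
        ((al A).val - (!![(5 : A), 0, 0; 0, 5, 0; 0, 0, 5])) = !![0, 0, 0; 0, 2, 0; 0, 0, 0] := by
      have g1 : ((9 : A) - 3) * (9 - 5) = 2 := red _ _ 2 (by norm_num)
      rw [hA]
      ext i j
      fin_cases i <;> fin_cases j <;>
        simp [Matrix.mul_apply, Fin.sum_univ_three, Matrix.sub_apply, g1]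
    rw [e] at h
    exact h
  have hEadd : ∀ y z : A, E y + E z = E (y + z) := by
    intro y z
    ext i j
    fin_cases i <;> fin_cases j <;> simp
  have hEmul : ∀ y z : A, E y * E z = E (y * z) := by
    intro y z
    ext i j
    fin_cases i <;> fin_cases j <;> simp [Matrix.mul_apply, Fin.sum_univ_three]
  have hEsmul : ∀ (r : ZMod 11) (y : A), r • E y = E (r • y) := by
    intro r y
    ext i j
    fin_cases i <;> fin_cases j <;> simp
  -- the generator a
  have ha : E a ∈ S := by
    have h := S.mul_mem (S.mul_mem (S.mul_mem e1 h2) e2) (S.mul_mem (S.mul_mem e2 h2) e1)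
    have h' := S.smul_mem h 4
    have e : (4 : ZMod 11) • (E (1 : A) * (be a b).val * !![0, 0, 0; 0, 2, 0; 0, 0, 0] *
        (!![0, 0, 0; 0, 2, 0; 0, 0, 0] * (be a b).val * E (1 : A))) = E a := by
      rw [hB]
      ext i j
      fin_cases i <;> fin_cases j <;>
        simp [Matrix.mul_apply, Fin.sum_univ_three]
      rw [Algebra.smul_def, map_ofNat]
      exact red _ _ (-(35 * a)) (by noncomm_ring)
    rw [e] at h'
    exact h'
  have hb : E b ∈ S := by
    have h := S.mul_mem (S.mul_mem e1 h2) e1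
    have e : (E (1 : A) * (be a b).val * E (1 : A)) = E (3 * (1 + b) + (-(a * 9) + (a - b) * 5)) := by
      rw [hB]
      ext i j
      fin_cases i <;> fin_cases j <;>
        simp [Matrix.mul_apply, Fin.sum_univ_three]
    rw [e] at h
    have h' := S.smul_mem (S.add_mem (S.sub_mem h (S.smul_mem e1 3)) (S.smul_mem ha 4)) 5
    have e' : (5 : ZMod 11) • (E (3 * (1 + b) + (-(a * 9) + (a - b) * 5)) -
        (3 : ZMod 11) • E (1 : A) + (4 : ZMod 11) • E a) = E b := by
      have g : ∀ y : A, (3 : ZMod 11) • y = 3 * y ∧ (4 : ZMod 11) • y = 4 * y ∧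
          (5 : ZMod 11) • y = 5 * y := by
        intro y
        refine ⟨?_, ?_, ?_⟩ <;> rw [Algebra.smul_def, map_ofNat]
      ext i j
      fin_cases i <;> fin_cases j <;> simp [(g _).1, (g _).2.1, (g _).2.2]
      refine red _ _ (-b) ?_
      have g3 : (3 : A) = 1 + 1 + 1 := by norm_num
      have g4 : (4 : A) = 1 + 1 + 1 + 1 := by norm_num
      have g5 : (5 : A) = 1 + 1 + 1 + 1 + 1 := by norm_num
      have g9 : (9 : A) = 1 + 1 + 1 + 1 + 1 + 1 + 1 + 1 + 1 := by norm_num
      have g11 : (11 : A) = 1 + 1 + 1 + 1 + 1 + 1 + 1 + 1 + 1 + 1 + 1 := by norm_num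
      rw [g3, g4, g5, g9, g11]
      noncomm_ring
    rw [e'] at h'
    exact h'
  have hc : c ∈ Algebra.adjoin (ZMod 11) {a, b} := by rw [hab]; exact Algebra.mem_top
  induction hc using Algebra.adjoin_induction with
  | mem y hy =>
    rcases hy with rfl | hy
    · exact ha
    · rw [Set.mem_singleton_iff] at hy
      rw [hy]; exact hb
  | algebraMap r =>
    have h := S.smul_mem e1 r
    rw [hEsmul, ← Algebra.algebraMap_eq_smul_one] at h
    exact h
  | add y z _ _ hy hz =>
    have h := S.add_mem hy hz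
    rw [hEadd] at h
    exact h
  | mul y z _ _ hy hz =>
    have h := S.mul_mem hy hz
    rw [hEmul] at h
    exact h

end Construction

/-- There are an abelian group (written multiplicatively here) and two automorphisms of order 5,
each fixing only the identity, which generate an infinite periodic group. -/
theorem result :
    ∃ (A : Type) (_ : CommGroup A) (α β : MulAut A),
      orderOf α = 5 ∧ orderOf β = 5 ∧
      (∀ a : A, α a = a → a = 1) ∧ (∀ a : A, β a = a → a = 1) ∧
      (∀ g ∈ Subgroup.closure ({α, β} : Set (MulAut A)), IsOfFinOrder g) ∧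
      Infinite (Subgroup.closure ({α, β} : Set (MulAut A))) := by
  have : Fact (Nat.Prime 11) := ⟨by norm_num⟩
  have : Fact (Nat.Prime 5) := ⟨by norm_num⟩
  obtain ⟨A, _, _, a, b, hab, hinf, hper⟩ := exists_periodic_GL 11 3
  have hnt : Nontrivial A := inferInstance
  have hmap : Subgroup.closure ({phi (al A), phi (be a b)} :
      Set (MulAut (Multiplicative (Matrix (Fin 3) (Fin 3) A)))) =
      (Subgroup.closure ({al A, be a b} : Set (Matrix (Fin 3) (Fin 3) A)ˣ)).map phi := by
    rw [MonoidHom.map_closure, Set.image_pair]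
  refine ⟨Multiplicative (Matrix (Fin 3) (Fin 3) A), inferInstance, phi (al A), phi (be a b),
    ?_, ?_, ?_, ?_, ?_, ?_⟩
  · rw [orderOf_injective phi phi_injective]
    exact orderOf_eq_prime al_pow al_ne
  · rw [orderOf_injective phi phi_injective]
    exact orderOf_eq_prime (be_pow a b) (be_ne a b)
  · intro v hv
    exact congrArg Multiplicative.ofAdd (al_regular v.toAdd (Multiplicative.ofAdd.injective hv))
  · intro v hv
    exact congrArg Multiplicative.ofAdd (be_regular a b v.toAdd (Multiplicative.ofAdd.injective hv))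
  · intro g hg
    rw [hmap] at hg
    obtain ⟨u, _, rfl⟩ := hg
    exact MonoidHom.isOfFinOrder phi (hper u)
  · rw [hmap]
    have h := units_infinite (ZMod 11) (Subgroup.closure ({al A, be a b} :
      Set (Matrix (Fin 3) (Fin 3) A)ˣ)) (A := A) E (by
        intro c d h
        exact congrFun (congrFun h 0) 0) (by
        intro c
        apply corner_mem a b hab
        all_goals
          apply Algebra.subset_adjoin
          apply Set.mem_image_of_mem
          apply Subgroup.subset_closure
          simp)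
    have h2 : Infinite (Subgroup.closure ({al A, be a b} : Set (Matrix (Fin 3) (Fin 3) A)ˣ)) :=
      Set.infinite_coe_iff.mpr h
    exact (Subgroup.equivMapOfInjective _ phi phi_injective).toEquiv.infinite_iff.mp h2

end Pool.Agent.Results.MP_b15bac_al.Disproof
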